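import Mathlib
import Pool.Agent.Lib.MP_16ef92_ag.TL.Lim
import Pool.Agent.Lib.MP_16ef92_ag.RS.Cup

set_option autoImplicit false
set_option linter.unusedSectionVars false
set_option linter.unusedVariables false
set_option linter.style.haveILetI false

namespace Pool.Agent.Lib.MP_16ef92_ag.LH

open RS Polynomial

noncomputable section

variable [Bg] {A R R' T Y V W : Type} [CommRing A] [CommRing R] [CommRing R'] [CommRing T]
  [CommRing Y] [CommRing V] [CommRing W]

/-- Pullback of a class with constant coefficients. -/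
abbrev cpb {n : ℕ} (i : Y →+* V) (c : H 1 (cst Y (ZMod n))) : H 1 (cst V (ZMod n)) :=
  Hmap 1 (cstMap i (AddMonoidHom.id (ZMod n))) c

/-- Locally etale over the affine line. -/
def LocA (f : A →+* Y) : Prop :=
  ∀ y : Pnt Y, ∃ (W : Type) (_ : CommRing W) (b : Y →+* W) (z : Pnt W) (h : A[X] →+* W),
    b.Etale ∧ z.comp b = y ∧ h.Etale ∧ h.comp C = b.comp f

/-- Good rings of finite type over an algebraically closed field. -/
structure Base (R : Type) [CommRing R] : Prop where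
  gd : Good R
  ft : ∃ (k : Type) (_ : Field k) (ι : k →+* R), IsAlgClosed k ∧ ι.FiniteType

variable {n : ℕ} [NeZero n]

/-- The sum of the cup products with the two classes. -/
def lh (c : Fin 2 → H 1 (cst V (ZMod n))) (j : R →+* V) {F : Sys R} (hF : F.Tor n) (q : ℕ)
    (m : Fin 2 → H q F) : HH (q + 1) F j :=
  ∑ e, cup (hF.pb j) (c e) q (Hmap q (F.can j) (m e))

/-- The cohomology of `V` over a base without cohomology. -/
structure FibK (n : ℕ) [NeZero n] (j : R →+* V) (c : Fin 2 → H 1 (cst V (ZMod n))) : Prop where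
  b0 : ∀ F : Sys R, Function.Surjective (Hmap 0 (F.can j))
  b1 : ∀ F : Sys R, F.Tor n → ∀ (q : ℕ) (ξ : HH (q + 2) F j), ξ = 0
  b2 : ∀ (F : Sys R) (hF : F.Tor n) (ξ : HH 1 F j), ∃ m, lh c j hF 0 m = ξ
  b3 : ∀ (F : Sys R) (hF : F.Tor n) (m : Fin 2 → H 0 F), lh c j hF 0 m = 0 → m = 0

/-- A family of curves with two classes that form a basis on every geometric fibre. -/
structure Fbr (n : ℕ) [NeZero n] (f : A →+* Y) (c : Fin 2 → H 1 (cst Y (ZMod n))) : Prop where
  flat : f.Flat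
  fp : f.FinitePresentation
  sur : Sur f
  loc : LocA f
  fib : ∀ (K : Type) [Field K] [IsAlgClosed K], Good K → ∀ (τ : A →+* K) (V : Type) [CommRing V]
    (i : Y →+* V) (j : K →+* V), FA.PO f τ i j → FibK n j fun e => cpb i (c e)

/-- The cohomology of etale algebras over the line. -/
structure CrvH (n : ℕ) : Prop where
  van : ∀ (K V : Type) [Field K] [IsAlgClosed K] [CommRing V], Good K → ∀ h : K[X] →+* V,
    h.Etale → ∀ F : Sys K, F.Tor n → ∀ (q : ℕ) (ξ : HH (q + 2) F (h.comp C)), ξ = 0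
  kum : ∀ (K V : Type) [Field K] [IsAlgClosed K] [CommRing V], Good K → ∀ h : K[X] →+* V,
    h.Etale → ∀ F : Sys K, F.Tor n → ∀ ξ : HH 1 F (h.comp C),
      ∃ (r : ℕ) (f : Fin r → V) (m : Fin r → ℕ) (I : Fin r → Ideal V),
        (∀ i, f i ∈ nonZeroDivisors V ∧ (m i : K) ≠ 0 ∧ I i ^ m i = Ideal.span {f i}) ∧
        ∀ (V' : Type) [CommRing V'] (b : V →+* V'), b.Etale → (∀ i, ∃ z, z ^ m i = b (f i)) →
          Dz ξ b

/-- Covers by rings whose local rings are algebraic closures of the residue fields. -/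
structure TT (g : R →+* T) : Prop where
  ac : FA.AC T
  gd : Good T
  alg : ∀ (z : Pnt T) (t : T), ∃ P : R[X], P.map (z.comp g) ≠ 0 ∧ P.eval₂ (z.comp g) (z t) = 0

/-- Base change of a morphism along a commutative square. -/
def bcM {g : R →+* T} {F : Sys R} {F' : Sys T} (m : Mor g F F') {j : R →+* Y} {i : Y →+* V}
    {j' : T →+* V} (h : i.comp j = j'.comp g) : Mor i (F.pb j) (F'.pb j') where
  φ z u := m.φ (z.comp j') u
  add z u hu v hv := m.add _ u (by rw [RingHom.comp_assoc, ← h]; exact hu) v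
    (by rw [RingHom.comp_assoc, ← h]; exact hv)
  mem z u hu := m.mem _ u (by rw [RingHom.comp_assoc, ← h]; exact hu)
  sec {Z} _ {a} s hs := m.sec (a := a.comp j') (by rw [RingHom.comp_assoc, ← h]; exact hs)

theorem bcM_can {g : R →+* T} {F : Sys R} {F' : Sys T} (m : Mor g F F') {j : R →+* Y}
    {i : Y →+* V} {j' : T →+* V} (h : i.comp j = j'.comp g) (q : ℕ) (ξ : H q F) :
    Hmap q (bcM m h) (Hmap q (F.can j) ξ) = Hmap q (F'.can j') (Hmap q m ξ) :=
  Hmap_sq q _ _ _ _ h (fun _ _ _ => rfl) ξ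

theorem cpb_cpb (i : Y →+* V) (i' : V →+* W) (c : H 1 (cst Y (ZMod n))) :
    cpb i' (cpb i c) = cpb (i'.comp i) c := Hmap_comp_of 1 _ _ _ rfl (fun _ _ _ => rfl) c

theorem cpb_id (c : H 1 (cst Y (ZMod n))) : cpb (RingHom.id Y) c = c :=
  Hmap_id 1 _ rfl (fun _ _ _ => rfl) c

theorem lh_nat (c : Fin 2 → H 1 (cst Y (ZMod n))) {g : R →+* T} {F : Sys R} {F' : Sys T}
    (hF : F.Tor n) (hF' : F'.Tor n) (μ : Mor g F F') {j : R →+* Y} {i : Y →+* V} {j' : T →+* V}
    (h : i.comp j = j'.comp g) (q : ℕ) (m : Fin 2 → H q F) :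
    Hmap (q + 1) (bcM μ h) (lh c j hF q m) =
      lh (fun e => cpb i (c e)) j' hF' q fun e => Hmap q μ (m e) := by
  rw [lh, lh, map_sum]
  exact Finset.sum_congr rfl fun e _ => by rw [cup_nat _ (hF'.pb j'), bcM_can]

/-- The Leray-Hirsch map as an additive map. -/
def lhL (c : Fin 2 → H 1 (cst V (ZMod n))) (j : R →+* V) {F : Sys R} (hF : F.Tor n) (q : ℕ) :
    (Fin 2 → H q F) →+ HH (q + 1) F j :=
  AddMonoidHom.mk' (lh c j hF q) fun m m' => by
    simp only [lh, Pi.add_apply, map_add, Finset.sum_add_distrib]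

theorem Base.of_ft (h : Base R) {a : R →+* V} (ha : a.FiniteType) : Base V := by
  obtain ⟨k, _, ι, h1, h2⟩ := h.ft
  exact ⟨h.gd.ft ha, k, _, a.comp ι, h1, ha.comp h2⟩

end

end Pool.Agent.Lib.MP_16ef92_ag.LH
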