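import Mathlib
import Pool.Agent.Lib.MP_16ef92_ag.LH.Def
import Pool.Agent.Lib.MP_16ef92_ag.LC.SecA

set_option autoImplicit false
set_option linter.unusedSectionVars false
set_option linter.unusedVariables false
set_option linter.style.haveILetI false

namespace Pool.Agent.Lib.MP_16ef92_ag.LH

open RS Polynomial

noncomputable section

variable [Bg] {A R R' T T' Y V W : Type} [CommRing A] [CommRing R] [CommRing R'] [CommRing T]
  [CommRing T'] [CommRing Y] [CommRing V] [CommRing W] {n : ℕ} [NeZero n]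

theorem bas_qm_id {F : Sys R} (m : Hom F F) (h : ∀ x, ∀ u ∈ F.M x, m.φ x u = u) (γ : Z0 (Q F)) :
    m.qm.app γ = γ := by
  refine Subtype.ext (funext fun x => ?_)
  obtain ⟨b, hb, e⟩ := (ses_can F).surj x _ ((Q F).mem γ.2 x)
  obtain ⟨W, _, c, y, t, hc, rfl, ht, rfl⟩ := (god F).gd.surj x b hb
  have e1 := m.jm_germ (RingHom.id W) y hc hc rfl ht
  have e2 : (fun z : Pnt W => m.φ (z.comp c) (t (z.comp (RingHom.id W)))) = t :=
    funext fun z => h _ _ (ht z)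
  rw [e2] at e1
  exact (congrArg (m.qm.φ _) e.symm).trans ((m.qm_pi _ hb).trans
    ((congrArg ((piQ F).φ _) e1).trans e))

/-- The connecting map commutes with the cup product. -/
theorem del_cup {F₁ F₂ F₃ : Sys R} {i : Hom F₁ F₂} {p : Hom F₂ F₃} (h : SES i p) (h₁ : F₁.Tor n)
    (h₂ : F₂.Tor n) (h₃ : F₃.Tor n) (c : H 1 (cst R (ZMod n))) (q : ℕ) (ξ : H q F₃) :
    h.del (q + 1) (cup h₃ c q ξ) = cup h₁ c (q + 1) (h.del q ξ) := by
  obtain ⟨γ, hγ⟩ := sh_surj 0 _ c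
  obtain ⟨ρ₁, r₁⟩ := exists_rho h₁ γ
  obtain ⟨ρ₂, r₂⟩ := exists_rho h₂ γ
  obtain ⟨ρ₃, r₃⟩ := exists_rho h₃ γ
  have e := bas_qm_id (cstMap (RingHom.id R) (AddMonoidHom.id (ZMod n))) (fun _ _ _ => rfl) γ
  rw [cup_eq h₃ hγ r₃, cup_eq h₁ hγ r₁, h.del_sh]
  exact (h.del_nat h.qm ρ₁ ρ₂ ρ₃
    (fun x u hu => (IsRho.nat h₁ h₂ r₁ (e.symm ▸ r₂) i x hu).symm)
    (fun x u hu => (IsRho.nat h₂ h₃ r₂ (e.symm ▸ r₃) p x hu).symm) q ξ).symm

theorem del_lh {F₁ F₂ F₃ : Sys R} {i : Hom F₁ F₂} {p : Hom F₂ F₃} (h : SES i p) (h₁ : F₁.Tor n)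
    (h₂ : F₂.Tor n) (h₃ : F₃.Tor n) (c : Fin 2 → H 1 (cst V (ZMod n))) (j : R →+* V) (q : ℕ)
    (m : Fin 2 → H q F₃) :
    (h.pb j).del (q + 1) (lh c j h₃ q m) = lh c j h₁ (q + 1) fun e => h.del q (m e) := by
  rw [lh, lh]
  refine (map_sum _ _ _).trans (Finset.sum_congr rfl fun e _ => ?_)
  refine (del_cup (h.pb j) (h₁.pb j) (h₂.pb j) (h₃.pb j) (c e) q _).trans (congrArg _ ?_)
  exact (h.del_nat (h.pb j) (F₁.can j) (F₂.can j) (F₃.can j) (fun _ _ _ => rfl) (fun _ _ _ => rfl)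
    q (m e)).symm

theorem LocA.bc {f : A →+* Y} (h : LocA f) {τ : A →+* R} {i : Y →+* V} {j : R →+* V}
    (hP : FA.PO f τ i j) : LocA j := by
  intro y
  obtain ⟨W, _, b, z, k, hb, hz, hk, e⟩ := h (y.comp i)
  obtain ⟨W', _, i', b', hP'⟩ := FA.exists_po b i
  obtain ⟨z', -, z2⟩ := hP'.ex OO z y hz
  have h1 := hP.paste hP'
  rw [← e] at h1
  exact ⟨W', _, b', z', _, hP'.symm.etale hb, z2, LC.etale_bc hk h1,
    RingHom.ext fun r => eval₂_C _ _⟩

theorem Fbr.bc {f : A →+* Y} {c : Fin 2 → H 1 (cst Y (ZMod n))} (h : Fbr n f c) {τ : A →+* R}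
    {i : Y →+* V} {j : R →+* V} (hP : FA.PO f τ i j) : Fbr n j fun e => cpb i (c e) := by
  refine ⟨hP.symm.of_stable RingHom.Flat.respectsIso RingHom.Flat.isStableUnderBaseChange h.flat,
    hP.symm.fp h.fp, fun x => ?_, h.loc.bc hP, fun K _ _ hK τ' V' _ i' j' hP' => ?_⟩
  · obtain ⟨y, hy⟩ := h.sur (x.comp τ)
    obtain ⟨z, -, z2⟩ := hP.ex OO y x hy
    exact ⟨z, z2⟩
  · have := h.fib K hK _ V' _ j' (hP.symm.paste hP'.symm).symm
    simpa only [cpb_cpb] using this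

theorem tt_TR (hR : Good R) : TT (FA.toTR OO R) :=
  ⟨FA.ac_TR, hR.tr, fun z t => FA.TR_poly z t⟩

theorem TT.et {g : R →+* T} (h : TT g) {c : R →+* R'} (hc : c.Etale) {i : T →+* T'}
    {g' : R' →+* T'} (hP : FA.PO g c i g') : TT g' := by
  have hi := hP.etale hc
  refine ⟨h.ac.etale hi, h.gd.et hi, fun z t' => ?_⟩
  obtain ⟨t, ht⟩ := h.ac.range_etale hi z t'
  obtain ⟨P, h1, h2⟩ := h.alg (z.comp i) t
  have e : (z.comp g').comp c = (z.comp i).comp g := by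
    rw [RingHom.comp_assoc, ← hP.comm, RingHom.comp_assoc]
  refine ⟨P.map c, ?_, ?_⟩
  · rwa [Polynomial.map_map, e]
  · rwa [eval₂_map, e, ← ht]

theorem bas_dz {g : R →+* T} (F : Sys R) {j : R →+* Y} {i : Y →+* V} {j' : T →+* V}
    (h : i.comp j = j'.comp g) (q : ℕ) (ξ : HH q F j) (h0 : Hmap q (bcM (F.can g) h) ξ = 0) :
    Hmap q ((F.pb j).can i) ξ = 0 := (dz_iff (F := F) (ξ := ξ) h).1 h0

theorem bas_eq {g : R →+* T} (F : Sys R) {j : R →+* Y} {i : Y →+* V} {j' : T →+* V}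
    (h : i.comp j = j'.comp g) (q : ℕ) (ξ ζ : HH q F j)
    (h0 : Hmap q (bcM (F.can g) h) ξ = Hmap q (bcM (F.can g) h) ζ) :
    Hmap q ((F.pb j).can i) ξ = Hmap q ((F.pb j).can i) ζ := by
  have := bas_dz F h q (ξ - ζ) (by rw [map_sub, h0, sub_self])
  exact sub_eq_zero.1 ((map_sub _ ξ ζ).symm.trans this)

theorem bas_lh_zero (c : Fin 2 → H 1 (cst V (ZMod n))) (j : R →+* V) {F : Sys R} (hF : F.Tor n)
    (q : ℕ) : lh c j hF q 0 = 0 := map_zero (lhL c j hF q)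

/-- The two components of a section of the direct sum. -/
def basP (F : Sys R) : Z0 (F.prod F) →+ (Fin 2 → H 0 F) :=
  AddMonoidHom.mk' (fun s => ![(F.fst F).app s, (F.snd F).app s]) fun s t => by
    funext e
    fin_cases e
    · exact map_add (F.fst F).app s t
    · exact map_add (F.snd F).app s t

theorem basP_surj (F : Sys R) (m : Fin 2 → H 0 F) : ∃ s, basP F s = m := by
  refine ⟨⟨fun x => ((m 0).1 x, (m 1).1 x), (m 0).2, (m 1).2⟩, funext fun e => ?_⟩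
  fin_cases e <;> rfl

/-- The fibrewise statements hold over a base whose local rings are algebraically closed fields. -/
theorem Fbr.fibT (hT : FA.AC T) (hG : Good T) {j : T →+* V} {c : Fin 2 → H 1 (cst V (ZMod n))}
    (h : Fbr n j c) : FibK n j c := by
  have hV : Good V := hG.ft (RingHom.FiniteType.of_finitePresentation h.fp)
  have hφ : ∀ φ : Fib j, FibK n φ.j fun e => cpb φ.i (c e) := fun φ =>
    h.fib φ.K φ.gd φ.π _ _ _ (Ten.po j φ.π)
  refine ⟨fun F ξ => ?_, fun F hF q ξ => ?_, fun F hF ξ => ?_, fun F hF m h0 => ?_⟩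
  · refine fib_surj (f := j) hT hG hV 0 (F.pb j) F (Hmap 0 (F.can j)) (fun e s _ hs => ?_) ξ
      fun φ => ?_
    · refine Subtype.ext (funext fun w => hs _ ?_)
      exact (congrArg w (FA.cut_self (j e))).trans (map_one w)
    · obtain ⟨t, ht⟩ := (hφ φ).b0 (F.pb φ.π) (Hmap 0 (bcM (F.can φ.π) (Ten.comm j φ.π)) ξ)
      obtain ⟨s, rfl⟩ := fib_sec hT φ F t
      exact ⟨s, bas_eq F (Ten.comm j φ.π) 0 _ _ ((bcM_can _ _ 0 s).trans ht)⟩
  · exact fib_zero (f := j) hT hG hV _ (F.pb j) ξ fun φ => bas_dz F (Ten.comm j φ.π) _ ξ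
      ((hφ φ).b1 _ (hF.pb φ.π) q _)
  · refine Exists.elim (fib_surj (f := j) hT hG hV 1 (F.pb j) (F.prod F)
      ((lhL c j hF 0).comp (basP F)) (fun e s _ hs => ?_) ξ fun φ => ?_) fun s hs => ⟨_, hs⟩
    · have e1 : (FA.cut (j e)).comp j =
          (FA.cutLift ((FA.cut (j e)).comp j) (FA.cut_self _)).comp (FA.cut e) := rfl
      refine bas_dz F e1 1 _ ((lh_nat c hF (hF.pb _) (F.can (FA.cut e)) e1 0 _).trans ?_)
      have e2 : (fun k => Hmap 0 (F.can (FA.cut e)) (basP F s k)) = 0 := by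
        have h1 : ∀ w : Pnt (FA.Cut e), s.1 (w.comp (FA.cut e)) = 0 := fun w =>
          hs _ ((congrArg w (FA.cut_self e)).trans (map_one w))
        funext k
        fin_cases k
        · exact Subtype.ext (funext fun w => congrArg Prod.fst (h1 w))
        · exact Subtype.ext (funext fun w => congrArg Prod.snd (h1 w))
      rw [e2]
      exact bas_lh_zero _ _ _ 0
    · obtain ⟨m', hm⟩ := (hφ φ).b2 _ (hF.pb φ.π) (Hmap 1 (bcM (F.can φ.π) (Ten.comm j φ.π)) ξ)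
      choose m h1 using fun k => fib_sec hT φ F (m' k)
      obtain ⟨s, hs⟩ := basP_surj F m
      refine ⟨s, bas_eq F (Ten.comm j φ.π) 1 _ _ ?_⟩
      refine (lh_nat c hF (hF.pb _) (F.can φ.π) (Ten.comm j φ.π) 0 _).trans (Eq.trans ?_ hm)
      rw [hs]
      exact congrArg _ (funext h1)
  · refine funext fun k => Subtype.ext (funext fun x => ?_)
    obtain ⟨φ, ι, rfl⟩ := exists_fib hT hG j x
    have h1 := (hφ φ).b3 _ (hF.pb φ.π) _
      ((lh_nat c hF (hF.pb _) (F.can φ.π) (Ten.comm j φ.π) 0 m).symm.trans (by rw [h0, map_zero]))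
    exact congrFun (congrArg Subtype.val (congrFun h1 k)) ι

end

end Pool.Agent.Lib.MP_16ef92_ag.LH
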