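import Mathlib
import Pool.Agent.Lib.MP_16ef92_ag.LH.Bas
import Pool.Agent.Lib.MP_16ef92_ag.LC.C1
import Pool.Agent.Lib.MP_16ef92_ag.SB.LD

set_option autoImplicit false
set_option linter.unusedSectionVars false
set_option linter.unusedVariables false
set_option linter.style.haveILetI false

namespace Pool.Agent.Lib.MP_16ef92_ag.LH

open RS Polynomial
open FA (Stage)

noncomputable section

variable [Bg] {R T Y V W S : Type} [CommRing R] [CommRing T] [CommRing Y] [CommRing V] [CommRing W]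
  [CommRing S] {n : ℕ} {g : R →+* T}

/-- An etale neighbourhood with a coordinate and a section. -/
theorem exists_nbhd (hR : Base R) {j : R →+* Y} (hj : LocA j) {c : Y →+* W}
    (hc : c.Etale) (y : Pnt W) :
    ∃ (R' : Type) (_ : CommRing R') (W' : Type) (_ : CommRing W') (a : R →+* R') (b : W →+* W')
      (h : R'[X] →+* W') (σ : W' →+* R') (x : Pnt R'), a.Etale ∧ b.Etale ∧ h.Etale ∧
      b.comp (c.comp j) = (h.comp C).comp a ∧ σ.comp h = evalRingHom 0 ∧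
      ∀ U : Stage (x.comp σ), ∃ z : Pnt U.W, z.comp (U.a.comp b) = y := by
  obtain ⟨Y', _, b₀, z₀, h₀, k1, k2, k3, k4⟩ := hj (y.comp c)
  obtain ⟨W₀, _, u, v, hW⟩ := FA.exists_po c b₀
  obtain ⟨y₀, y1, -⟩ := hW.ex OO y z₀ k2.symm
  have e1 : (v.comp h₀).Etale := et_comp k3 (hW.symm.etale hc)
  have e2 : ((v.comp h₀).comp C).FiniteType :=
    (RingHom.FiniteType.of_finitePresentation (FA.etale_fp e1)).comp
      ((RingHom.finiteType_algebraMap (A := R) (B := R[X])).2 inferInstance)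
  have hB : Base W₀ := hR.of_ft e2
  obtain ⟨y₁, m1, m2⟩ := hB.gd.closed y₀
  obtain ⟨k, _, ι, i1, i2⟩ := hR.ft
  obtain ⟨α, hα⟩ := LC.closed_val (e2.comp i2) y₁ m1 (v.comp h₀ X)
  obtain ⟨R', _, W', _, a, b, h, σ, x, p1, p2, p3, p4, p5⟩ := LC.exists_sec e1 y₁ (ι α) hα
  refine ⟨R', _, W', _, a, b.comp u, h, σ, x, p1, et_comp (hW.etale k1) (p2.etale p1), p3, ?_, p4,
    fun U => ?_⟩
  · rw [← p2.comm, RingHom.comp_assoc, RingHom.comp_assoc, k4, ← RingHom.comp_assoc j c,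
      hW.comm, RingHom.comp_assoc]
  · obtain ⟨z, hz⟩ := m2 U.W (U.a.comp b) (et_comp (p2.etale p1) U.et)
      ⟨U.d, by rw [← RingHom.comp_assoc, U.comm, p5]⟩
    exact ⟨z, by rw [← y1, ← hz]; rfl⟩

theorem TT.fib_alg (hg : TT g) {f : T →+* S} (φ : Fib f) (z : φ.K) :
    ∃ P : R[X], P.map (φ.π.comp g) ≠ 0 ∧ P.eval₂ (φ.π.comp g) z = 0 := by
  obtain ⟨ι, -⟩ := φ.gd ⊥ Ideal.isPrime_bot
  obtain ⟨t, rfl⟩ := φ.sur z
  obtain ⟨P, h1, h2⟩ := hg.alg (ι.comp φ.π) t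
  refine ⟨P, fun h => h1 ?_, ι.injective ?_⟩
  · rw [RingHom.comp_assoc, ← Polynomial.map_map, h, Polynomial.map_zero]
  · rw [hom_eval₂, map_zero]
    exact h2

variable {h : R[X] →+* W} {σ : W →+* R} {γ : W →+* S} {j : T →+* S}

/-- Positive degrees, with a section. -/
theorem ld_pos (p : ℕ) [Fact p.Prime] [CharP OO p] (hC : CrvH n) (hR : Base R) (hh : h.Etale)
    (hσ : σ.comp h = evalRingHom 0) (hg : TT g) (hP : FA.PO (h.comp C) g γ j) (hS : Good S)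
    (M : Sys T) (hM : M.Tor n) (q : ℕ) (ξ : HH (q + 1) M j) (x : Pnt R) : LD ξ γ (x.comp σ) := by
  refine LD.fib hg.ac hg.gd hS j fun φ => ?_
  have h1 : FA.PO (h.comp C) (φ.π.comp g) (φ.i.comp γ) φ.j :=
    (hP.symm.paste (Ten.po j φ.π).symm).symm
  have h2 := LC.etale_bc hh h1
  have h3 : (eval₂RingHom φ.j ((φ.i.comp γ) (h X))).comp C = φ.j := RingHom.ext fun r => eval₂_C _ _
  have h4 : φ.i.comp j = ((eval₂RingHom φ.j ((φ.i.comp γ) (h X))).comp C).comp φ.π := by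
    rw [h3]; exact Ten.comm j φ.π
  have key : ∀ (U : Stage (x.comp σ)), (∀ (Z : Type) [CommRing Z] (e : φ.A →+* Z) (d : U.W →+* Z),
      e.comp (φ.i.comp γ) = d.comp U.a → Dz (HR (q + 1) M φ.i h4 ξ) e) →
      LD (HR (q + 1) M φ.i rfl ξ) (φ.i.comp γ) (x.comp σ) := fun U hU =>
    ⟨U, fun Z _ e d he => (dz_HR _ _).2 ((dz_HR _ _).1 (hU Z e d he))⟩
  cases q with
  | succ q =>
    refine key (Stage.bot _) fun Z _ e d _ => ?_
    rw [show HR (q + 1 + 1) M φ.i h4 ξ = 0 from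
      hC.van φ.K φ.A φ.gd _ h2 (M.pb φ.π) (hM.pb _) q _, Dz, map_zero]
  | zero =>
    obtain ⟨r, f, m, I, a1, a2⟩ := hC.kum φ.K φ.A φ.gd _ h2 (M.pb φ.π) (hM.pb _)
      (HR 1 M φ.i h4 ξ)
    obtain ⟨k, _, ι, i1, i2⟩ := hR.ft
    obtain ⟨u, -⟩ := φ.gd ⊥ Ideal.isPrime_bot
    have : CharP φ.K p := u.charP u.injective p
    choose W' _ b y' b1 b2 b3 using fun i => LC.c1 p i2 hh hσ (hg.fib_alg φ) h1 (a1 i).2.1
      (a1 i).1 (a1 i).2.2 x
    obtain ⟨U, b', hb⟩ := Stage.exists_ub fun i => (⟨W' i, b i, y' i, b1 i, b2 i⟩ : Stage (x.comp σ))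
    obtain ⟨A, _, e₁, d₁, hA⟩ := FA.exists_po (φ.i.comp γ) U.a
    have a3 := a2 A e₁ (hA.etale U.et) fun i => b3 i A e₁ (d₁.comp (b' i))
      (by rw [hA.comm, ← (hb i).1]; rfl)
    refine key U fun Z _ e d he => ?_
    obtain ⟨w, w1, -⟩ := hA.ex Z e d he
    exact w1 ▸ Dz.comp (F := M) a3 w

/-- Degree zero: a section that vanishes along the section of the family vanishes near it. -/
theorem ld_zero (hh : h.Etale) (hσ : σ.comp h = evalRingHom 0) (hg : TT g)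
    (hP : FA.PO (h.comp C) g γ j) (hS : Good S) {s : S →+* T} (hs : s.comp γ = g.comp σ)
    (hs' : s.comp j = RingHom.id T) (M : Sys T) (δ : HH 0 M j)
    (h0 : ∀ z : Pnt T, δ.1 (z.comp s) = 0) (x : Pnt R) : LD δ γ (x.comp σ) := by
  refine LD.fib hg.ac hg.gd hS j fun φ => ?_
  have h1 : FA.PO (h.comp C) (φ.π.comp g) (φ.i.comp γ) φ.j :=
    (hP.symm.paste (Ten.po j φ.π).symm).symm
  have hV : Good φ.A := hS.ie (φ.ie.baseChange (Ten.po j φ.π))
  obtain ⟨e, e1, e2⟩ := sec_idem hV (M.pb φ.π) (j := φ.j) (δ := rs φ.i δ.1)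
    (M.res' φ.i (Ten.comm j φ.π) δ.2)
  obtain ⟨s', s1, s2⟩ := (Ten.po j φ.π).ex φ.K (φ.π.comp s) (RingHom.id _)
    (by rw [RingHom.comp_assoc, hs']; rfl)
  obtain ⟨u, -⟩ := φ.gd ⊥ Ideal.isPrime_bot
  have e3 : s' e = 1 := u.injective (by
    rw [map_one]
    refine (e2 (u.comp s')).2 ?_
    rw [rs_apply, RingHom.comp_assoc, s1]
    exact h0 (u.comp φ.π))
  obtain ⟨r, r1, r2⟩ := LC.c0 hh hσ h1 (s := s')
    (by rw [← RingHom.comp_assoc, s1, RingHom.comp_assoc, hs]; rfl) s2 e1 e3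
  obtain ⟨y, hy⟩ := pnt_away (x.comp σ) (f := r)
    (by rw [RingHom.comp_apply, r1, map_one]; exact one_ne_zero)
  refine ⟨⟨_, _, y, et_away r, hy⟩, fun Z _ ε d he => Subtype.ext (funext fun z => ?_)⟩
  refine (e2 (z.comp ε)).1 ?_
  have a1 := congrArg (z.comp ε) r2
  have a2 : (z.comp ε) ((φ.i.comp γ) r) ≠ 0 := by
    rw [RingHom.comp_apply, ← RingHom.comp_apply ε, he]
    exact pnt_away_ne (z.comp d)
  rw [map_mul, map_zero, mul_eq_zero, map_sub, map_one, sub_eq_zero] at a1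
  exact (a1.resolve_left a2).symm

end

end Pool.Agent.Lib.MP_16ef92_ag.LH
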