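import Mathlib
import Pool.Agent.Lib.MP_16ef92_ag.LH.SbA

set_option autoImplicit false
set_option linter.unusedSectionVars false
set_option linter.unusedVariables false
set_option linter.style.haveILetI false

namespace Pool.Agent.Lib.MP_16ef92_ag.LH

open RS Polynomial

noncomputable section

variable [Bg] {R T Y V : Type} [CommRing R] [CommRing T] [CommRing Y] [CommRing V] {n : ℕ}
  {g : R →+* T} {j : R →+* Y} {i : Y →+* V} {j' : T →+* V}

/-- The squares over a neighbourhood with a section. -/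
theorem nbhd_sq {W R' W' : Type} [CommRing W] [CommRing R'] [CommRing W'] (hP : FA.PO j g i j')
    (c : Y →+* W) {a : R →+* R'} {b : W →+* W'} {h : R' →+* W'}
    (e : b.comp (c.comp j) = h.comp a) : ∃ ε : Ten c i →+* Ten h (Ten.inl a g),
      ε.comp ((Ten.inr c i).comp j') = (Ten.inr h _).comp (Ten.inr a g) ∧
      FA.PO (Ten.inl c i) b ε (Ten.inl h _) := by
  have h1 := hP.paste (Ten.po c i)
  have h2 := (Ten.po a g).paste (Ten.po h (Ten.inl a g))
  rw [← e] at h2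
  obtain ⟨ε, e1, e2⟩ := h1.ex _ ((Ten.inl h _).comp b) _ h2.comm
  exact ⟨ε, e2, (h1.cancel (e2 ▸ h2) e1.symm).symm⟩

/-- Local acyclicity in positive degrees. -/
theorem sbc_dies (p : ℕ) [Fact p.Prime] [CharP OO p] (hC : CrvH n) (hR : Base R) (hj : LocA j)
    (hY : j.FiniteType) (hg : TT g) (hP : FA.PO j g i j') (M : Sys T) (hM : M.Tor n) (q : ℕ) :
    Dies i (M.pb j') q := by
  refine dies_of_ld fun W _ c y ξ hc => ?_
  obtain ⟨R', _, W', _, a, b, h, σ, x, k1, k2, k3, k4, k5, k6⟩ := exists_nbhd hR hj hc y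
  obtain ⟨ε, e1, e2⟩ := nbhd_sq hP c k4
  have hg' := hg.et k1 (Ten.po a g).symm
  have hS : Good (Ten (h.comp C) (Ten.inl a g)) :=
    ((hg.gd.ft (hP.symm.ft hY)).et (Ten.etale_inr i hc)).et (e2.etale k2)
  exact LD.etale (F := M) (a := (Ten.inr c i).comp j') k2 e2 k6 e1
    (ld_pos p hC (hR.of_ft (.of_finitePresentation (FA.etale_fp k1))) k3 k5 hg' (Ten.po _ _) hS
      (M.pb (Ten.inr a g)) (hM.pb _) q _ x)

theorem sbc_inj (h1 : j.Flat) (h2 : j.FinitePresentation) (hP : FA.PO j g i j') (M : Sys T) :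
    ((M.can j').push (g := g) (g' := i) (f := j) hP.comm.symm).Inj := by
  intro x u hu h0
  obtain ⟨W, _, c, y, s, hc, hy, hs, rfl⟩ := pg_surj _ hu
  have hc' := Ten.etale_inr j hc
  let k : Ten c g →+* Ten (Ten.inr c j) i := Ten.lift ((Ten.inl _ i).comp (Ten.inl c j))
    ((Ten.inr _ i).comp j') (by
      rw [RingHom.comp_assoc, Ten.comm, ← RingHom.comp_assoc, Ten.comm, RingHom.comp_assoc, hP.comm,
        RingHom.comp_assoc])
  have k1 : k.comp (Ten.inl c g) = (Ten.inl _ i).comp (Ten.inl c j) := Ten.lift_inl ..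
  have k2 : k.comp (Ten.inr c g) = (Ten.inr _ i).comp j' := Ten.lift_inr ..
  have e1 := (M.can j').push_pg hP.comm.symm hc hc' (Ten.inl c j) (Ten.comm c j) (Ten.lift y x hy)
    hs k k1 k2
  rw [Ten.lift_inl, Ten.lift_inr, h0] at e1
  have a0 := (Nr.push (b := Ten.inl c j) ((Ten.po c j).of_stable RingHom.Flat.respectsIso
    RingHom.Flat.isStableUnderBaseChange h1) ((Ten.po c j).fp h2) (z := Ten.lift y x hy)
    (P := fun z => ∀ w : Pnt (Ten (Ten.inr c j) i), w.comp (Ten.inl _ i) = z → s (w.comp k) = 0)) (by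
      obtain ⟨φ, p1, p2⟩ := (pg_zero (F := M.pb j') hc' _ (M.res' k k2 hs)).1 e1.symm
      exact ⟨φ, p1, fun z hz w hw => p2 w (by rw [← hw] at hz; exact hz)⟩)
  rw [Ten.lift_inl] at a0
  obtain ⟨ψ, q1, q2⟩ := a0
  refine (pg_zero hc y hs).2 ⟨ψ, q1, fun w hw => ?_⟩
  obtain ⟨z, z1, z2⟩ := q2 (w.comp (Ten.inl c g)) hw
  obtain ⟨τ, t1, t2⟩ := hP.ex OO (z.comp (Ten.inr c j)) (w.comp (Ten.inr c g)) (by
    rw [RingHom.comp_assoc j, ← Ten.comm, ← RingHom.comp_assoc c, z1, RingHom.comp_assoc c,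
      Ten.comm, RingHom.comp_assoc g])
  have a1 : (Ten.lift z τ t1.symm).comp k = w := Ten.hom_ext
    (by rw [RingHom.comp_assoc, k1, ← RingHom.comp_assoc, Ten.lift_inl, z1])
    (by rw [RingHom.comp_assoc, k2, ← RingHom.comp_assoc, Ten.lift_inr, t2])
  exact a1 ▸ z2 _ (Ten.lift_inl ..)

theorem sbc_surj (hR : Base R) (hj : LocA j) (hY : j.FiniteType) (hg : TT g)
    (hP : FA.PO j g i j') (M : Sys T) :
    ((M.can j').push (g := g) (g' := i) (f := j) hP.comm.symm).Surj := by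
  intro x₀ v hv
  obtain ⟨W, _, c, y, s, hc, rfl, hs, rfl⟩ := pg_surj _ hv
  obtain ⟨R', _, W', _, a, b, h, σ, x, k1, k2, k3, k4, k5, k6⟩ := exists_nbhd hR hj hc y
  obtain ⟨ε, e1, e2⟩ := nbhd_sq hP c k4
  have hg' := hg.et k1 (Ten.po a g).symm
  have hS : Good (Ten (h.comp C) (Ten.inl a g)) :=
    ((hg.gd.ft (hP.symm.ft hY)).et (Ten.etale_inr i hc)).et (e2.etale k2)
  have hσ : σ.comp (h.comp C) = RingHom.id _ := by
    rw [← RingHom.comp_assoc, k5]
    exact RingHom.ext fun _ => eval_C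
  obtain ⟨ρ, r1, r2⟩ := (Ten.po (h.comp C) (Ten.inl a g)).ex _ ((Ten.inl a g).comp σ)
    (RingHom.id _) (by rw [RingHom.comp_assoc, hσ]; rfl)
  have s1 : rs ε s ∈ M.S ((Ten.inr (h.comp C) _).comp (Ten.inr a g)) := M.res' ε e1 hs
  have ht : rs ρ (rs ε s) ∈ M.S (Ten.inr a g) :=
    M.res' ρ (by rw [← RingHom.comp_assoc, r2]; rfl) s1
  obtain ⟨U, hU⟩ := ld_zero k3 k5 hg' (Ten.po _ _) hS r1 r2 (M.pb (Ten.inr a g))
    ⟨rs ε s - rs (Ten.inr (h.comp C) _) (rs ρ (rs ε s)), sub_mem s1 (M.res _ ht)⟩ (fun z => by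
      change s _ - s _ = 0
      rw [RingHom.comp_assoc (Ten.inr _ _) ρ z, r2]
      exact sub_self _) x
  obtain ⟨z, hz⟩ := k6 U
  obtain ⟨c', c0⟩ : ∃ c', (U.a.comp b).comp c = c' := ⟨_, rfl⟩
  have c1 : c'.Etale := c0 ▸ et_comp hc (et_comp k2 U.et)
  have c2 : (U.a.comp (h.comp C)).comp a = c'.comp j := c0 ▸ congrArg U.a.comp k4.symm
  let k : Ten a g →+* Ten c' i := Ten.lift
    ((Ten.inl _ i).comp (U.a.comp (h.comp C))) ((Ten.inr _ i).comp j') (by
      rw [RingHom.comp_assoc, c2, ← RingHom.comp_assoc, Ten.comm, RingHom.comp_assoc, hP.comm,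
        RingHom.comp_assoc])
  have q1 : k.comp (Ten.inl a g) = (Ten.inl _ i).comp (U.a.comp (h.comp C)) := Ten.lift_inl ..
  have q2 : k.comp (Ten.inr a g) = (Ten.inr _ i).comp j' := Ten.lift_inr ..
  obtain ⟨e, q3, q4⟩ := (Ten.po (h.comp C) (Ten.inl a g)).ex _ ((Ten.inl _ i).comp U.a) k q1.symm
  have q5 : e.comp ε = Ten.map i (U.a.comp b) c0 := (hP.paste (Ten.po c i)).uq _ _ _
    (by rw [RingHom.comp_assoc, e2.comm, ← RingHom.comp_assoc, q3, Ten.map_inl]; rfl)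
    (by rw [RingHom.comp_assoc, e1, ← RingHom.comp_assoc, q4, q2, ← RingHom.comp_assoc,
      Ten.map_inr])
  have y1 : y.comp c = z.comp c' := by rw [← hz, ← c0]; rfl
  refine ⟨pg g M a (z.comp (U.a.comp (h.comp C))) (rs ρ (rs ε s)), ?_, ?_⟩
  · have := (push g M).mem (pg_sec k1 ht) (z.comp (U.a.comp (h.comp C)))
    rwa [RingHom.comp_assoc, c2, ← RingHom.comp_assoc, ← y1] at this
  · rw [y1, ← hz, ← pg_res (F := M.pb j') hc c1 (U.a.comp b) c0 z hs]
    refine ((M.can j').push_pg hP.comm.symm k1 c1 _ c2 z ht k q1 q2).trans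
      (congrArg _ (funext fun w => ?_))
    have := congrFun (congrArg Subtype.val (hU _ e (Ten.inl _ i) q3)) w
    rw [← q5, ← q4]
    exact (sub_eq_zero.1 this).symm

/-- Smooth base change. -/
theorem sbc (p : ℕ) [Fact p.Prime] [CharP OO p] (hC : CrvH n) (hR : Base R) (hj : LocA j)
    (h1 : j.Flat) (h2 : j.FinitePresentation) (hg : TT g) (hP : FA.PO j g i j') (M : Sys T)
    (hM : M.Tor n) (q : ℕ) : Function.Bijective (Hmap q (bcM (eps g M) hP.comm)) := by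
  have hY := RingHom.FiniteType.of_finitePresentation h2
  have hD := sbc_dies p hC hR hj hY hg hP M hM
  have a1 := Hmap_bij q ((M.can j').push (g := g) (g' := i) (f := j) hP.comm.symm).toHom
    (sbc_inj h1 h2 hP M) (sbc_surj hR hj hY hg hP M)
  have a2 : Function.Bijective (Hmap q (eps i (M.pb j'))) :=
    ⟨eps_inj q _ fun r _ => hD r, eps_surj q _ fun r _ => hD r⟩
  refine (funext fun ξ => ?_ : _ = ⇑(Hmap q (bcM (eps g M) hP.comm))) ▸ a2.comp a1
  exact Hmap_comp_of q _ _ _ rfl (fun τ u hu => (M.can j').eps_push hP.comm.symm τ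
    (by rw [← hP.comm]; exact hu)) ξ

end

end Pool.Agent.Lib.MP_16ef92_ag.LH
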