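import Mathlib
import Pool.Agent.Lib.MP_16ef92_ag.LH.Sbc

set_option autoImplicit false
set_option linter.unusedSectionVars false
set_option linter.unusedVariables false
set_option linter.style.haveILetI false

namespace Pool.Agent.Lib.MP_16ef92_ag.LH

open RS Polynomial

noncomputable section

variable [Bg] {A R Y V : Type} [CommRing A] [CommRing R] [CommRing Y] [CommRing V] {n : ℕ}
  [NeZero n] {j : R →+* V} {c : Fin 2 → H 1 (cst V (ZMod n))}

theorem cok_tor {F G : Sys R} (u : Hom F G) (hG : G.Tor n) : u.cok.Tor n := by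
  rintro x _ ⟨v, hv, rfl⟩
  exact (map_nsmul (u.cmk x) n v).symm.trans ((congrArg _ (hG x v hv)).trans (map_zero _))

theorem hull_tor {F : Sys R} (hF : F.Tor n) : (hull F).Tor n := push_tor (hF.pb _) _

theorem can_pb {F G : Sys R} (u : Hom F G) (j : R →+* V) (q : ℕ) (ξ : H q F) :
    Hmap q (u.pb j) (Hmap q (F.can j) ξ) = Hmap q (G.can j) (Hmap q u ξ) :=
  Hmap_sq q (F.can j) (u.pb j) u (G.can j) rfl (fun _ _ _ => rfl) ξ

theorem lh_pb {F G : Sys R} (hF : F.Tor n) (hG : G.Tor n) (u : Hom F G) (q : ℕ)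
    (m : Fin 2 → H q F) :
    Hmap (q + 1) (u.pb j) (lh c j hF q m) = lh c j hG q fun e => Hmap q u (m e) := by
  have := lh_nat c hF hG u (j := j) (i := RingHom.id V) (j' := j) rfl q m
  simp only [cpb_id] at this
  exact (Hmap_congr (q + 1) _ _ rfl (fun _ _ _ => rfl) _).trans this

theorem del_can {F₁ F₂ F₃ : Sys R} {i : Hom F₁ F₂} {π : Hom F₂ F₃} (hs : SES i π) (j : R →+* V)
    (q : ℕ) (ξ : H q F₃) :
    (hs.pb j).del q (Hmap q (F₃.can j) ξ) = Hmap (q + 1) (F₁.can j) (hs.del q ξ) :=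
  (hs.del_nat (hs.pb j) (F₁.can j) (F₂.can j) (F₃.can j) (fun _ _ _ => rfl) (fun _ _ _ => rfl)
    q ξ).symm

theorem can_inj (hj : Sur j) (F : Sys R) (s : H 0 F) (h : Hmap 0 (F.can j) s = 0) : s = 0 :=
  Subtype.ext (funext fun x => by
    obtain ⟨y, rfl⟩ := hj x
    exact congrFun (congrArg Subtype.val h) y)

/-- Independence of the two classes is checked on the fibres. -/
theorem Fbr.ind (h : Fbr n j c) (F : Sys R) (hF : F.Tor n) (m : Fin 2 → H 0 F)
    (h0 : lh c j hF 0 m = 0) : m = 0 := by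
  refine funext fun e => Subtype.ext (funext fun x => ?_)
  have hP := Ten.po j x
  have h1 := (h.fib OO good_oo x _ _ _ hP).b3 (F.pb x) (hF.pb x) (fun e => Hmap 0 (F.can x) (m e))
    (by rw [← lh_nat c hF (hF.pb x) (F.can x) hP.comm, h0, map_zero])
  exact congrFun (congrArg Subtype.val (congrFun h1 e)) (RingHom.id OO)

section

variable (p : ℕ) [Fact p.Prime] [CharP OO p] (hC : CrvH n) (hR : Base R) (h : Fbr n j c)
include p hC hR h

theorem hull_bij {F : Sys R} (hF : F.Tor n) (q : ℕ) : Function.Bijective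
    (Hmap q (bcM (eps (FA.toTR OO R) (F.pb (FA.toTR OO R))) (Ten.po j (FA.toTR OO R)).comm)) :=
  sbc p hC hR h.loc h.flat h.fp (tt_TR hR.gd) (Ten.po j _) _ (hF.pb _) q

omit p hC in
theorem hull_fib : FibK n (Ten.inr j (FA.toTR OO R)) fun e => cpb (Ten.inl j _) (c e) :=
  (h.bc (Ten.po j _)).fibT FA.ac_TR hR.gd.tr

theorem hull_zero {F : Sys R} (hF : F.Tor n) :
    Function.Surjective (Hmap 0 ((hull F).can j)) := fun s => by
  obtain ⟨m, hm⟩ := (hull_fib hR h).b0 _ (Hmap 0 (bcM (eps _ (F.pb _)) (Ten.po j _).comm) s)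
  obtain ⟨γ, rfl⟩ := (push_H0 (FA.toTR OO R) (F.pb _)).2 m
  exact ⟨γ, (hull_bij p hC hR h hF 0).1 ((bcM_can _ _ 0 γ).trans hm)⟩

theorem hull_one {F : Sys R} (hF : F.Tor n) (ξ : HH 1 (hull F) j) :
    ∃ γ, lh c j (hull_tor hF) 0 γ = ξ := by
  obtain ⟨m, hm⟩ := (hull_fib hR h).b2 _ (hF.pb _)
    (Hmap 1 (bcM (eps _ (F.pb _)) (Ten.po j _).comm) ξ)
  choose γ hγ using fun e => (push_H0 (FA.toTR OO R) (F.pb _)).2 (m e)
  refine ⟨γ, (hull_bij p hC hR h hF 1).1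
    ((lh_nat c (hull_tor hF) (hF.pb _) _ _ 0 γ).trans (Eq.trans ?_ hm))⟩
  exact congrArg _ (funext hγ)

theorem hull_two {F : Sys R} (hF : F.Tor n) (q : ℕ) (ξ : HH (q + 2) (hull F) j) : ξ = 0 :=
  (hull_bij p hC hR h hF (q + 2)).1
    (((hull_fib hR h).b1 _ (hF.pb _) q _).trans (map_zero _).symm)

theorem lh_zero (F : Sys R) (hF : F.Tor n) : Function.Surjective (Hmap 0 (F.can j)) := fun s => by
  have hs := ses_hull F
  obtain ⟨γ, hγ⟩ := hull_zero p hC hR h hF (Hmap 0 ((toHull F).pb j) s)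
  have h1 : Hmap 0 (toHull F).pr γ = 0 := can_inj h.sur _ _ (by
    rw [← can_pb, hγ]
    exact ((hs.pb j).mid 0 _).2 ⟨s, rfl⟩)
  obtain ⟨α, rfl⟩ := (hs.mid 0 γ).1 h1
  exact ⟨α, (hs.pb j).inj.app ((can_pb _ j 0 α).trans hγ)⟩

/-- The Leray-Hirsch theorem for one fibre. -/
theorem lh_succ (q : ℕ) (F : Sys R) (hF : F.Tor n) (ξ : HH (q + 1) F j) :
    ∃ (z : H (q + 1) F) (m : Fin 2 → H q F), ξ = Hmap (q + 1) (F.can j) z + lh c j hF q m := by
  induction q generalizing F with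
  | zero =>
    have hs := ses_hull F
    have hG := hull_tor hF
    have hK := cok_tor (toHull F) hG
    obtain ⟨γ, hγ⟩ := hull_one p hC hR h hF (Hmap 1 ((toHull F).pb j) ξ)
    have h1 := h.ind _ hK (fun e => Hmap 0 (toHull F).pr (γ e)) (by
      rw [← lh_pb hG hK, hγ]
      exact ((hs.pb j).mid 1 _).2 ⟨ξ, rfl⟩)
    choose m hm using fun e => (hs.mid 0 (γ e)).1 (congrFun h1 e)
    obtain ⟨ζ, hζ⟩ := ((hs.pb j).del_range 0 (ξ - lh c j hF 0 m)).1 (by
      rw [map_sub, lh_pb hF hG, ← hγ, funext hm, sub_self])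
    obtain ⟨ζ₀, rfl⟩ := lh_zero p hC hR h _ hK ζ
    exact ⟨hs.del 0 ζ₀, m, by rw [← del_can, hζ, sub_add_cancel]⟩
  | succ q ih =>
    have hs := ses_hull F
    have hG := hull_tor hF
    have hK := cok_tor (toHull F) hG
    obtain ⟨ζ, rfl⟩ := ((hs.pb j).del_range (q + 1) ξ).1 (hull_two p hC hR h hF q _)
    obtain ⟨z, m, rfl⟩ := ih _ hK ζ
    exact ⟨hs.del (q + 1) z, fun e => hs.del q (m e), by
      rw [map_add, del_can, del_lh hs hF hG hK]⟩

end

end

end Pool.Agent.Lib.MP_16ef92_ag.LH
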